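import Pool.Agent.Helper45.FG.St

/-!
# Module GPX of project FG (MP_7221b2_al): the Galois gap of a product
-/

set_option autoImplicit false

namespace Pool.Agent.Helper86.FG

open Pool.Agent.Helper45.FG

private theorem root_map {S : Set ℝ} (φ : IntermediateField.adjoin ℚ S →ₐ[ℚ] ℂ) (x : ℝ)
    (hx : x ∈ IntermediateField.adjoin ℚ S) :
    Polynomial.aeval (φ ⟨x, hx⟩) (minpoly ℚ x) = 0 := by
  rw [Polynomial.aeval_algHom_apply]
  have h1 : Polynomial.aeval (⟨x, hx⟩ : IntermediateField.adjoin ℚ S) (minpoly ℚ x) = 0 := by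
    apply Subtype.ext
    have h2 := Polynomial.aeval_algHom_apply (IntermediateField.adjoin ℚ S).val
      (⟨x, hx⟩ : IntermediateField.adjoin ℚ S) (minpoly ℚ x)
    rw [IntermediateField.coe_val] at h2
    rw [← h2]
    exact minpoly.aeval ℚ x
  rw [h1, map_zero]

private theorem split_root {x y : ℝ} (ix : IsIntegral ℚ x) (iy : IsIntegral ℚ y) {z : ℂ}
    (hz : Polynomial.aeval z (minpoly ℚ (x * y)) = 0) :
    ∃ u v : ℂ, Polynomial.aeval u (minpoly ℚ x) = 0 ∧ Polynomial.aeval v (minpoly ℚ y) = 0 ∧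
      z = u * v := by
  have hK : ∀ s ∈ ({x, y} : Set ℝ), IsIntegral ℚ s ∧
      ((minpoly ℚ s).map (algebraMap ℚ ℂ)).Splits := by
    intro s hs
    refine ⟨?_, IsAlgClosed.splits _⟩
    rcases hs with rfl | hs
    · exact ix
    · rw [Set.mem_singleton_iff.1 hs]
      exact iy
  have hxm : x ∈ IntermediateField.adjoin ℚ ({x, y} : Set ℝ) :=
    IntermediateField.subset_adjoin ℚ _ (Set.mem_insert _ _)
  have hym : y ∈ IntermediateField.adjoin ℚ ({x, y} : Set ℝ) :=
    IntermediateField.subset_adjoin ℚ _ (Set.mem_insert_of_mem _ rfl)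
  have hxy : x * y ∈ IntermediateField.adjoin ℚ ({x, y} : Set ℝ) := mul_mem hxm hym
  obtain ⟨φ, hφ⟩ := IntermediateField.exists_algHom_adjoin_of_splits_of_aeval hK hxy hz
  refine ⟨φ ⟨x, hxm⟩, φ ⟨y, hym⟩, root_map φ x hxm, root_map φ y hym, ?_⟩
  rw [← hφ, ← map_mul]
  rfl

/-- Module GPX. -/
theorem hGPX : StGPX := by
  intro γ x y hγ hx hy ix iy gx gy z hz
  obtain ⟨u, v, hu, hv, rfl⟩ := split_root ix iy hz
  have hn1 := norm_nonneg u
  have hn2 := norm_nonneg v
  rw [norm_mul]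
  rcases gx u hu with h | h
  · rcases gy v hv with h' | h'
    · left
      rw [h, h']
    · right
      rw [h]
      have h3 : x * (‖v‖ + γ) ≤ x * y := mul_le_mul_of_nonneg_left h' (by linarith)
      have h4 : γ ≤ x * γ := by nlinarith
      linarith
  · right
    have h3 : ‖v‖ ≤ y := by
      rcases gy v hv with h' | h'
      · exact h'.le
      · linarith
    have h4 : ‖u‖ * ‖v‖ ≤ (x - γ) * y := mul_le_mul (by linarith) h3 hn2 (by linarith)
    have h5 : γ ≤ γ * y := by nlinarith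
    linarith

end Pool.Agent.Helper86.FG
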